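import Pool.Agent.H63.Arr.Lin3

/-!
Let `a` be the number of parts equal to `1`. For parts of bounded size the excess of
`f(k_1, …, k_r)` over `Σ k_i + a` grows linearly with the number of parts `k_i ≥ 2`: for every
`D ≥ 1` there is `F ≥ 1` with
`F (Σ k_i + a) + #{i : k_i ≥ 2, 2D ∤ k_i} ≤ F (k + 2D - 1)` whenever `k ↦ (k_1, …, k_r)`.

Proof: there is a `2D`-regular, `2D`-edge-connected multigraph such that no function on its edges
has the value `κ` on all cuts with `2D` edges, unless `2D ∣ κ`. It is built from gadgets with two
halves of `D` dangling edges: joining two gadgets forces balanced halves, and exchanging two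
dangling edges of different halves forces them to have the same value. Take a chain of many
copies of it and `m` parallel copies of every edge. For every tight vertex set `X` of the gadget
partition the vertices into the copies of `X` and single vertices, count the edges of all classes
between the blocks, and add over all `X`; a connected class has at least as many such edges as
there are blocks, minus one. (The idea of balanced halves and transmission is due to helper65.)
-/

set_option autoImplicit false

namespace Pool.Agent.Results.MP_21a058_co.LinearExcess

open Pool.Agent.Helper243Arrow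

/-- Linear excess over `Σ k_i + #{i : k_i = 1}` caused by the parts `k_i ≥ 2` not divisible
by `2D`. -/
theorem result (D : ℕ) (hD : 1 ≤ D) :
    ∃ F : ℕ, 1 ≤ F ∧ ∀ (r : ℕ) (ks : Fin r → ℕ) (k : ℕ), Arrow k ks →
      F * (∑ i, ks i + (Finset.univ.filter fun i => ks i = 1).card) +
        (Finset.univ.filter fun i => 2 ≤ ks i ∧ ¬ 2 * D ∣ ks i).card ≤
        F * (k + (2 * D - 1)) := by
  obtain ⟨F, hF1, hF⟩ := Pool.Agent.H63.Arr.lin2_all D hD
  refine ⟨F, hF1, fun r ks k hk => ?_⟩
  have := hF r ks k hk
  convert this using 3

end Pool.Agent.Results.MP_21a058_co.LinearExcess
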