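import Pool.Agent.H63.Arr.Count

/-!
`f(k_1, …, k_r) ≥ Σ k_i + #{i : k_i odd} - 1`. (The graph contains long paths all of whose edges
have multiplicity `p`, `2p` the least even number with `k ≤ 2p`; a `K`-edge-connected class with
`K` odd has at least `(K + 1) / 2` edges in all but one bundle of such a path.)
-/

set_option autoImplicit false

namespace Pool.Agent.Results.MP_21a058_co.OddParts

open Pool.Agent.Helper243Arrow

/-- If `k ↦ (k_1, …, k_r)` then `Σ k_i` plus the number of odd parts is at most `2 ⌈k/2⌉`. -/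
theorem result (r : ℕ) (ks : Fin r → ℕ) (k : ℕ) (hk : Arrow k ks) :
    ∑ i, ks i + (Finset.univ.filter fun i => ks i % 2 = 1).card ≤ 2 * ((k + 1) / 2) := by
  have hA : Arrow (2 * ((k + 1) / 2)) ks := arrow_mono (by omega) ks hk
  obtain ⟨h1, _⟩ := Pool.Agent.H63.Arr.main ks ((k + 1) / 2) hA
  rw [Finset.sum_add_distrib] at h1
  have h3 : (Finset.univ.filter fun i => ks i % 2 = 1).card = ∑ i, ks i % 2 := by
    rw [Finset.card_filter]
    refine Finset.sum_congr rfl fun i _ => ?_
    split_ifs <;> omega
  omega

end Pool.Agent.Results.MP_21a058_co.OddParts
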