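import Pool.Agent.H63.Arr.Tree

/-!
Parts equal to one. Let `a` parts be equal to `1` and let some part be at least `2`. Then
`f(k_1, …, k_r) ≥ 2 ⌊(Σ k_i + a) / 2⌋ + 1`; in particular `f(1, …, 1, 2) ∈ {2a + 3, 2a + 4}`.

Proof: let `2h` be at most `Σ k_i + a`. The graph is a chain of `2a + 1` copies of a gadget, closed
by one more vertex; it is `2h`-regular and `2h`-edge-connected, and in each copy every class
with `2h ∤ k_i` has a cut with `2h` edges of the graph and more than `k_i` edges of the class.
Partition the vertices into these sets (one in each copy) and single vertices and count the edges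
between different blocks: a connected class has at least as many as there are blocks, minus one.
-/

set_option autoImplicit false

namespace Pool.Agent.Results.MP_21a058_co.PartsOne

open Pool.Agent.Helper243Arrow

/-- Lower bound for `r ≥ 2` positive parts, not all equal to `1`. -/
theorem result (r : ℕ) (ks : Fin r → ℕ) (hr : 2 ≤ r) (hpos : ∀ i, 1 ≤ ks i)
    (hex : ∃ j, 2 ≤ ks j) (k : ℕ) (hk : Arrow k ks) :
    2 * ((∑ i, ks i + (Finset.univ.filter fun i => ks i = 1).card) / 2) + 1 ≤ k := by
  have := Pool.Agent.H63.Arr.ones_bound r ks hr hpos hex k hk
  convert this using 6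

end Pool.Agent.Results.MP_21a058_co.PartsOne
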