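import Pool.Agent.H63.Arr.Count

/-!
`f(k_1, …, k_r) ≥ Σ k_i + (3 o + 2 t - 7) / 5`, where `o` is the number of odd parts and `t` the
number of parts that are `2` modulo `4`.

The graph: vertices `z_0, …, z_q`; between `z_g` and `z_(g+1)` two long paths whose first vertices
form a triangle with `z_g` and whose last vertices form a triangle with `z_(g+1)`; one more bundle
joins `z_0` and `z_q`. Bundles of the paths have `p` parallel edges, those of the triangles `⌈p/2⌉`
or `⌊p/2⌋`, where `2p` is the least even number with `k ≤ 2p`. This multigraph is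
`2p`-edge-connected.
-/

set_option autoImplicit false

namespace Pool.Agent.Results.MP_21a058_co.TwoModFour

open Pool.Agent.Helper243Arrow

/-- `3` if `K` is odd, `2` if `K ≡ 2` modulo `4`, `0` if `4 ∣ K`. -/
def delta (K : ℕ) : ℕ := if K % 4 = 0 then 0 else if K % 4 = 2 then 2 else 3

/-- If `k ↦ (k_1, …, k_r)` and `p = ⌈k/2⌉`, then `Σ (5 k_i + δ(k_i)) ≤ 10 p + 2 (p mod 2)`. -/
theorem result (r : ℕ) (ks : Fin r → ℕ) (k : ℕ) (hk : Arrow k ks) :
    ∑ i, (5 * ks i + delta (ks i)) ≤ 10 * ((k + 1) / 2) + 2 * (((k + 1) / 2) % 2) := by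
  have hA : Arrow (2 * ((k + 1) / 2)) ks := arrow_mono (by omega) ks hk
  obtain ⟨_, h2⟩ := Pool.Agent.H63.Arr.main ks ((k + 1) / 2) hA
  have h4 : ∑ i, (5 * ks i + delta (ks i)) =
      ∑ i, (5 * ks i + Pool.Agent.H63.Arr.dl (ks i)) := rfl
  rw [h4]
  omega

end Pool.Agent.Results.MP_21a058_co.TwoModFour
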